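import Pool.Agent.Helper62.CX.Stm
import Pool.Agent.Helper18.BM.HW

/-!
# The Hasse-Witt functionals of a cyclic cover are independent
-/

set_option autoImplicit false

open Polynomial Matrix Finset

namespace Pool.Agent.Helper18.CX

open Pool.Agent.Helper62.BM Pool.Agent.Helper62.BW Pool.Agent.Helper62.CX Pool.Agent.Helper18.BM

/-- powers of `a` divide the solutions -/
lemma dvd_ode {K : Type} [Field K] {a b : K[X]} (m r r' : ℕ) (ha : a ≠ 0)
    (hco : IsCoprime a (derivative a * b)) {A : K[X]}
    (hode : (m : K[X]) * (a * b) * derivative A +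
      ((r : K[X]) * derivative a * b + (r' : K[X]) * a * derivative b) * A = 0) :
    ∀ s : ℕ, (∀ t < s, ((m * t + r : ℕ) : K) ≠ 0) → a ^ s ∣ A := by
  intro s
  induction s with
  | zero => intro _; simp
  | succ s ih =>
    intro hs
    obtain ⟨B, rfl⟩ := ih fun t ht => hs t (by omega)
    have h1 : a * derivative (a ^ s) = (s : K[X]) * a ^ s * derivative a := by
      rw [derivative_pow]
      rcases Nat.eq_zero_or_pos s with h0 | h0
      · subst h0
        simp
      · obtain ⟨u, rfl⟩ : ∃ u, s = u + 1 := ⟨s - 1, by omega⟩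
        have e6 : (Polynomial.C ((u + 1 : ℕ) : K) : K[X]) = ((u + 1 : ℕ) : K[X]) :=
          map_natCast _ _
        rw [e6, Nat.add_sub_cancel]
        ring
    rw [derivative_mul] at hode
    have h2 : a ^ s * (((m * s + r : ℕ) : K[X]) * (derivative a * b * B) +
        a * ((m : K[X]) * b * derivative B + (r' : K[X]) * derivative b * B)) = 0 := by
      push_cast
      linear_combination hode - (m : K[X]) * b * B * h1
    have h3 := (mul_eq_zero.mp h2).resolve_left (pow_ne_zero _ ha)
    have h4 : a ∣ ((m * s + r : ℕ) : K[X]) * (derivative a * b * B) := by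
      refine ⟨-((m : K[X]) * b * derivative B + (r' : K[X]) * derivative b * B), ?_⟩
      linear_combination h3
    have h5 : IsUnit ((m * s + r : ℕ) : K[X]) := by
      have e6 : (Polynomial.C ((m * s + r : ℕ) : K) : K[X]) = ((m * s + r : ℕ) : K[X]) :=
        map_natCast _ _
      rw [← e6]
      exact isUnit_C.mpr (hs s (Nat.lt_succ_self s)).isUnit
    have h6 : a ∣ derivative a * b * B := (h5.dvd_mul_left).mp h4
    have h7 : a ∣ B := hco.dvd_of_dvd_mul_left h6
    rw [pow_succ]
    exact mul_dvd_mul_left _ h7

theorem core {K : Type} [Field K] (p : ℕ) [Fact p.Prime] [CharP K p] (m r r' k na nb N d ρ : ℕ)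
    (hpk : p = m * k + 1) (hr : 0 < r) (hr' : 0 < r') (hm : r + r' = m) (hd : 1 ≤ d)
    (hρ : r * na + r' * nb = m * d + ρ) (hN : N + 1 = na + nb)
    (a b : K[X]) (ha : a.natDegree = na) (hb : b.natDegree = nb) (hsep : (a * b).Separable)
    (P : K[X]) (hP' : derivative P = 0) (hPd : P.natDegree + p ≤ p * d)
    (hΛ : ∀ l < N, (X ^ l * (a ^ (r * k) * b ^ (r' * k) * P)).coeff (p * d - 1) = 0) :
    P = 0 := by
  have hp : p.Prime := Fact.out
  have hp0 : 0 < p := hp.pos
  have hab : a * b ≠ 0 := hsep.ne_zero
  have ha0 : a ≠ 0 := left_ne_zero_of_mul hab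
  have hb0 : b ≠ 0 := right_ne_zero_of_mul hab
  have hk0 : 0 < k := by
    rcases Nat.eq_zero_or_pos k with h0 | h0
    · rw [h0, mul_zero] at hpk
      have := hp.two_le
      omega
    · exact h0
  have hcop : IsCoprime a b := hsep.isCoprime
  have hsa : a.Separable := hsep.of_mul_left
  have hsb : b.Separable := hsep.of_mul_right
  have hca : IsCoprime a (derivative a * b) := IsCoprime.mul_right hsa hcop
  have hcb : IsCoprime b (derivative b * a) := IsCoprime.mul_right hsb hcop.symm
  set n := p * d with hn
  have hpn : p ∣ n := dvd_mul_right _ _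
  have hn0 : 0 < n := Nat.mul_pos hp0 hd
  set F : K[X] := a ^ (r * k) * b ^ (r' * k) with hF
  have hFne : F ≠ 0 := mul_ne_zero (pow_ne_zero _ ha0) (pow_ne_zero _ hb0)
  have hFd : F.natDegree = k * (m * d + ρ) := by
    rw [hF, natDegree_mul (pow_ne_zero _ ha0) (pow_ne_zero _ hb0), natDegree_pow, natDegree_pow,
      ha, hb, ← hρ]
    ring
  have hFd' : F.natDegree + d = p * d + k * ρ := by
    rw [hFd, hpk]
    ring
  have hdN : d ≤ N := by
    have h1 : m * d < m * (N + 1) := by
      have h2 : r * na + r' * nb < m * (na + nb) ∨ na + nb = 0 := by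
        rcases Nat.eq_zero_or_pos (na + nb) with h0 | h0
        · exact Or.inr h0
        · left
          rw [← hm]
          have : (r + r') * (na + nb) = r * na + r' * nb + (r * nb + r' * na) := by ring
          have h3 : 0 < r * nb + r' * na := by
            rcases Nat.eq_zero_or_pos na with h4 | h4
            · have := Nat.mul_pos hr (show 0 < nb by omega)
              omega
            · have := Nat.mul_pos hr' h4
              omega
          omega
      rcases h2 with h2 | h2
      · rw [hN]
        omega
      · omega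
    have := Nat.lt_of_mul_lt_mul_left h1
    omega
  set G : K[X] := F * P with hG
  have hGd : G.natDegree ≤ F.natDegree + P.natDegree := natDegree_mul_le
  -- the differential equation
  have hmk : (m : K[X]) * (k : K[X]) = -1 := by
    have h0 : ((m * k + 1 : ℕ) : K[X]) = 0 := by
      rw [← hpk]
      exact CharP.cast_eq_zero _ p
    push_cast at h0
    linear_combination h0
  have hder : ∀ (h : K[X]) (s : ℕ), h * derivative (h ^ s) = (s : K[X]) * h ^ s * derivative h := by
    intro h s
    rw [derivative_pow]
    rcases Nat.eq_zero_or_pos s with h0 | h0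
    · subst h0
      simp
    · obtain ⟨u, rfl⟩ : ∃ u, s = u + 1 := ⟨s - 1, by omega⟩
      have e6 : (Polynomial.C ((u + 1 : ℕ) : K) : K[X]) = ((u + 1 : ℕ) : K[X]) :=
        map_natCast _ _
      rw [e6, Nat.add_sub_cancel]
      ring
  have hodeG : (m : K[X]) * (a * b) * derivative G +
      ((r : K[X]) * derivative a * b + (r' : K[X]) * a * derivative b) * G = 0 := by
    rw [hG, derivative_mul, hP', mul_zero, add_zero, hF, derivative_mul]
    have h1 := hder a (r * k)
    have h2 := hder b (r' * k)
    push_cast at h1 h2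
    linear_combination (m : K[X]) * b * b ^ (r' * k) * P * h1 +
      (m : K[X]) * a * a ^ (r * k) * P * h2 +
      ((r : K[X]) * derivative a * b + (r' : K[X]) * a * derivative b) *
        (a ^ (r * k) * b ^ (r' * k) * P) * hmk
  -- the two parts
  set A := G /ₘ X ^ n with hA
  set R := G %ₘ X ^ n with hR
  have hGAR : R + X ^ n * A = G := modByMonic_add_div G (X ^ n)
  have hRn : ∀ t, n ≤ t → R.coeff t = 0 := by
    intro t ht
    apply coeff_eq_zero_of_degree_lt
    refine lt_of_lt_of_le (degree_modByMonic_lt G (monic_X_pow n)) ?_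
    rw [degree_X_pow]
    exact_mod_cast ht
  have hRc : ∀ t, n ≤ t + N → R.coeff t = 0 := by
    intro t ht
    by_cases htn : n ≤ t
    · exact hRn t htn
    push Not at htn
    have h1 := hΛ (n - 1 - t) (by omega)
    rw [coeff_X_pow_mul', if_pos (by omega)] at h1
    have h2 : n - 1 - (n - 1 - t) = t := by omega
    rw [h2, ← hGAR, coeff_add, coeff_X_pow_mul', if_neg (by omega), add_zero] at h1
    exact h1
  have hXn : derivative (X ^ n : K[X]) = 0 := by
    rw [derivative_X_pow, (CharP.cast_eq_zero_iff K p n).mpr hpn]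
    simp
  set U : K[X] := (m : K[X]) * (a * b) * derivative A +
      ((r : K[X]) * derivative a * b + (r' : K[X]) * a * derivative b) * A with hU
  set V : K[X] := (m : K[X]) * (a * b) * derivative R +
      ((r : K[X]) * derivative a * b + (r' : K[X]) * a * derivative b) * R with hV
  have hUV : X ^ n * U + V = 0 := by
    rw [← hGAR, derivative_add, derivative_mul (f := X ^ n), hXn, zero_mul, zero_add] at hodeG
    rw [hU, hV]
    linear_combination hodeG
  have hlamd : ((r : K[X]) * derivative a * b + (r' : K[X]) * a * derivative b).natDegree ≤ N := by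
    have e1 : ∀ s : ℕ, (s : K[X]) = C (s : K) := fun s => (map_natCast C s).symm
    have hpos : 0 < na + nb := by omega
    refine (natDegree_add_le _ _).trans (max_le ?_ ?_)
    · by_cases hna : na = 0
      · have : derivative a = 0 := by
          rw [eq_C_of_natDegree_eq_zero (ha.trans hna), derivative_C]
        rw [this]
        simp
      · rw [mul_assoc, e1]
        refine (natDegree_C_mul_le _ _).trans (natDegree_mul_le.trans ?_)
        have := natDegree_derivative_le a
        omega
    · by_cases hnb : nb = 0
      · have : derivative b = 0 := by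
          rw [eq_C_of_natDegree_eq_zero (hb.trans hnb), derivative_C]
        rw [this]
        simp
      · rw [mul_assoc, e1]
        refine (natDegree_C_mul_le _ _).trans (natDegree_mul_le.trans ?_)
        have := natDegree_derivative_le b
        omega
  have hVc : ∀ t, n ≤ t → V.coeff t = 0 := by
    intro t ht
    by_cases hR0 : R = 0
    · rw [hV, hR0]
      simp
    have hRd : R.natDegree + N < n := by
      by_contra hcon
      push Not at hcon
      exact hR0 (leadingCoeff_eq_zero.mp (hRc _ hcon))
    have h1 : ((m : K[X]) * (a * b) * derivative R).natDegree ≤ R.natDegree + N := by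
      by_cases hR1 : R.natDegree = 0
      · have : derivative R = 0 := by
          rw [eq_C_of_natDegree_eq_zero hR1, derivative_C]
        rw [this]
        simp
      · have e1 : (m : K[X]) = C (m : K) := (map_natCast C m).symm
        rw [mul_assoc, e1]
        refine (natDegree_C_mul_le _ _).trans (natDegree_mul_le.trans ?_)
        have h2 := natDegree_derivative_le R
        have h3 : (a * b).natDegree = na + nb := by
          rw [natDegree_mul ha0 hb0, ha, hb]
        omega
    have h2 : (((r : K[X]) * derivative a * b + (r' : K[X]) * a * derivative b) * R).natDegree ≤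
        R.natDegree + N := by
      refine natDegree_mul_le.trans ?_
      omega
    have h3 : V.natDegree ≤ R.natDegree + N := (natDegree_add_le _ _).trans (max_le h1 h2)
    exact coeff_eq_zero_of_natDegree_lt (by omega)
  have hU0 : U = 0 := by
    ext t
    have h1 := congrArg (fun Q : K[X] => Q.coeff (t + n)) hUV
    simp only [coeff_add, coeff_zero] at h1
    rw [hVc (t + n) (by omega), add_zero, coeff_X_pow_mul] at h1
    rw [h1, coeff_zero]
  -- divisibility
  have hnz : ∀ s, s < m → ∀ t < s * k, ((m * t + s : ℕ) : K) ≠ 0 := by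
    intro s hs t ht h0
    rw [CharP.cast_eq_zero_iff K p] at h0
    have h1 : p ∣ (m * t + s) * k := Dvd.dvd.mul_right h0 k
    obtain ⟨u, hu⟩ : ∃ u, s * k = t + u := ⟨s * k - t, by omega⟩
    have h2 : (m * t + s) * k = p * t + u := by
      have : (m * t + s) * k = (m * k) * t + s * k := by ring
      rw [this, hu, hpk]
      ring
    rw [h2] at h1
    have h3 : p ∣ u := (Nat.dvd_add_right (dvd_mul_right p t)).mp h1
    have h4 := Nat.le_of_dvd (by omega) h3
    have h5 : s * k ≤ m * k := Nat.mul_le_mul_right k hs.le
    omega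
  have hA0 : A = 0 := by
    by_contra hA0
    have h1 : a ^ (r * k) ∣ A := dvd_ode m r r' ha0 hca hU0 _ (hnz r (by omega))
    have h2 : b ^ (r' * k) ∣ A := by
      refine dvd_ode m r' r hb0 hcb ?_ _ (hnz r' (by omega))
      rw [← hU0, hU]
      ring
    have h3 : F ∣ A := (hcop.pow).mul_dvd h1 h2
    have h4 := natDegree_le_of_dvd h3 hA0
    have h5 : A.natDegree = G.natDegree - n := by
      rw [hA, natDegree_divByMonic G (monic_X_pow n), natDegree_X_pow]
    have h6 : n ≤ G.natDegree := by
      by_contra hcon
      push Not at hcon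
      apply hA0
      rw [hA, divByMonic_eq_zero_iff (monic_X_pow n), degree_X_pow]
      refine lt_of_le_of_lt degree_le_natDegree ?_
      exact_mod_cast hcon
    omega
  by_contra hP0
  have hG0 : G ≠ 0 := mul_ne_zero hFne hP0
  have h1 : G.natDegree = F.natDegree + P.natDegree := natDegree_mul hFne hP0
  rw [hA0, mul_zero, add_zero] at hGAR
  have h2 := hRc G.natDegree (by omega)
  rw [hGAR] at h2
  exact hG0 (leadingCoeff_eq_zero.mp h2)

theorem c_HWrank : C_HWrank := by
  intro F _ p _ _ m r na nb N hmp hr hrm hnd hN hNp a b ha hb hsep c hc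
  have hp : p.Prime := Fact.out
  obtain ⟨k, hk⟩ := hmp
  have hm0 : 0 < m := lt_of_lt_of_le hr hrm.le
  have hdiv : (p - 1) / m = k := by
    rw [hk]
    exact Nat.mul_div_cancel_left k hm0
  have hpk : p = m * k + 1 := by
    have := hp.two_le
    omega
  rw [hdiv] at hc
  obtain ⟨d, hd⟩ : ∃ d, d = dC m r na nb := ⟨_, rfl⟩
  have hρ : r * na + (m - r) * nb = m * d + (r * na + (m - r) * nb) % m := by
    rw [hd, dC]
    exact (Nat.div_add_mod _ _).symm
  revert c hc
  rw [← hd]
  intro c hc
  rcases Nat.eq_zero_or_pos d with hd0 | hd0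
  · subst hd0
    funext i
    exact i.elim0
  set P : F[X] := ∑ i : Fin d, monomial (p * (d - 1 - (i : ℕ))) (c i) with hP
  have hP' : derivative P = 0 := by
    rw [hP, derivative_sum]
    refine Finset.sum_eq_zero fun i _ => ?_
    rw [derivative_monomial]
    have : ((p * (d - 1 - (i : ℕ)) : ℕ) : F) = 0 :=
      (CharP.cast_eq_zero_iff F p _).mpr (dvd_mul_right _ _)
    rw [this, mul_zero, monomial_zero_right]
  have hPd : P.natDegree + p ≤ p * d := by
    have h1 : P.natDegree ≤ p * (d - 1) := by
      rw [hP]
      refine natDegree_sum_le_of_forall_le _ _ fun i _ => ?_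
      refine (natDegree_monomial_le _).trans ?_
      exact Nat.mul_le_mul_left p (by omega)
    have h2 : p * (d - 1) + p = p * d := by
      obtain ⟨g', rfl⟩ : ∃ g', d = g' + 1 := ⟨d - 1, by omega⟩
      rw [Nat.add_sub_cancel]
      ring
    omega
  have hΛ : ∀ l < N, (X ^ l * (a ^ (r * k) * b ^ ((m - r) * k) * P)).coeff (p * d - 1) = 0 := by
    intro l hl
    have h1 := congrFun hc ⟨l, hl⟩
    rw [Matrix.vecMul, dotProduct] at h1
    simp only [YC, Matrix.of_apply, Pi.zero_apply] at h1
    rw [← h1, hP, Finset.mul_sum, Finset.mul_sum, finsetSum_coeff]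
    refine Finset.sum_congr rfl fun i _ => ?_
    have h2 : X ^ l * (a ^ (r * k) * b ^ ((m - r) * k) * monomial (p * (d - 1 - (i : ℕ))) (c i)) =
        C (c i) * (X ^ (p * (d - 1 - (i : ℕ))) * (X ^ l * (a ^ (r * k) * b ^ ((m - r) * k)))) := by
      rw [← C_mul_X_pow_eq_monomial]
      ring
    rw [h2, coeff_C_mul, coeff_X_pow_mul']
    have h3 : p * (d - 1 - (i : ℕ)) + p * ((i : ℕ) + 1) = p * d := by
      rw [← mul_add]
      congr 1
      omega
    have h4 : 0 < p * ((i : ℕ) + 1) := Nat.mul_pos hp.pos (Nat.succ_pos _)
    rw [if_pos (by omega)]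
    congr 2
    omega
  have hP0 : P = 0 := core p m r (m - r) k na nb N d _ hpk hr (by omega) (by omega) hd0 hρ hN
    a b ha hb hsep P hP' hPd hΛ
  funext i
  have h1 : P.coeff (p * (d - 1 - (i : ℕ))) = c i := by
    rw [hP, finsetSum_coeff, Finset.sum_eq_single i]
    · rw [coeff_monomial, if_pos rfl]
    · intro b _ hb
      rw [coeff_monomial, if_neg]
      intro h
      apply hb
      have h5 := Nat.eq_of_mul_eq_mul_left hp.pos h
      ext
      omega
    · intro h
      exact absurd (Finset.mem_univ i) h
  rw [← h1, hP0, coeff_zero]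
  rfl

end Pool.Agent.Helper18.CX
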