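import Pool.Agent.Helper62.CX.Stm
import Pool.Agent.Helper18.BM.HW

/-!
# The Hasse-Witt functionals of a general family of cyclic covers: degrees, horizontality
-/

set_option autoImplicit false

open Polynomial Matrix Finset

namespace Pool.Agent.Helper18.CX

open Pool.Agent.Helper62.BM Pool.Agent.Helper62.BW Pool.Agent.Helper62.CX Pool.Agent.Helper18.BM

theorem c_HWdeg : C_HWdeg := by
  intro R _ p qa qb d N T a b ha hb hq i l
  have ha' : CDeg a T := ha
  have hb' : CDeg b T := hb
  have h1 : CDeg (X ^ (l : ℕ) * (a ^ qa * b ^ qb)) (qa * T + qb * T) := by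
    have := ((cdeg_X (R := R) 0).pow (l : ℕ)).mul ((ha'.pow qa).mul (hb'.pow qb))
    simpa using this
  refine (h1 _).trans ?_
  rw [← add_mul, mul_comm]
  exact Nat.mul_le_mul_left _ hq

theorem c_HWb : C_HWb := by
  intro R _ p _ _ m r d N hmp hr hrm a b W P S hR i l
  have hp : p.Prime := Fact.out
  obtain ⟨k, hk⟩ := hmp
  have hm0 : 0 < m := lt_of_lt_of_le hr hrm.le
  have hdiv : (p - 1) / m = k := by
    rw [hk]
    exact Nat.mul_div_cancel_left k hm0
  have hk0 : 0 < k := by
    rcases Nat.eq_zero_or_pos k with h0 | h0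
    · rw [h0, mul_zero] at hk
      have := hp.two_le
      omega
    · exact h0
  have hpk : p = m * k + 1 := by
    have := hp.two_le
    omega
  obtain ⟨s, hs⟩ : ∃ s, r * k = s + 1 := ⟨r * k - 1, by have := Nat.mul_pos hr hk0; omega⟩
  obtain ⟨s', hs'⟩ : ∃ s', (m - r) * k = s' + 1 :=
    ⟨(m - r) * k - 1, by have := Nat.mul_pos (Nat.sub_pos_of_lt hrm) hk0; omega⟩
  have hmk : (m : R[X][X]) * (k : R[X][X]) = -1 := by
    have h0 : ((m * k + 1 : ℕ) : R[X][X]) = 0 := by
      rw [← hpk]
      exact CharP.cast_eq_zero _ p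
    push_cast at h0
    linear_combination h0
  have hrk : ((s + 1 : ℕ) : R[X][X]) = (r : R[X][X]) * (k : R[X][X]) := by
    rw [← hs]
    push_cast
    ring
  have hrk' : ((s' + 1 : ℕ) : R[X][X]) = ((m - r : ℕ) : R[X][X]) * (k : R[X][X]) := by
    rw [← hs', Nat.cast_mul]
  rw [hdiv, hs, hs']
  obtain ⟨hP, hS, hrel⟩ := hR l
  have hda : dt a = dc a := rfl
  have hdb : dt b = dc b := rfl
  rw [hda, hdb] at hrel
  have hN : 0 < N := l.pos
  -- the right hand side
  have hdeg : (P l + derivative (S l)).natDegree < N := by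
    refine lt_of_le_of_lt (natDegree_add_le _ _) (max_lt hP ?_)
    refine lt_of_le_of_lt (natDegree_derivative_le (S l)) ?_
    omega
  have hsum : P l + derivative (S l) =
      ∑ j : Fin N, Polynomial.C ((P l + derivative (S l)).coeff j) * X ^ (j : ℕ) := by
    rw [← Finset.sum_range fun j =>
      Polynomial.C ((P l + derivative (S l)).coeff j) * X ^ j]
    conv_lhs => rw [as_sum_range' (P l + derivative (S l)) N hdeg]
    exact Finset.sum_congr rfl fun j _ => by rw [C_mul_X_pow_eq_monomial]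
  have hRHS : ∑ j, YC p (s + 1) (s' + 1) d N a b i j * Mc P S j l =
      -((P l + derivative (S l)) * (a ^ (s + 1) * b ^ (s' + 1))).coeff (p * ((i : ℕ) + 1) - 1) := by
    rw [hsum, Finset.sum_mul, finsetSum_coeff, ← Finset.sum_neg_distrib]
    refine Finset.sum_congr rfl fun j _ => ?_
    rw [mul_assoc, coeff_C_mul, YC, Mc, Matrix.of_apply, Matrix.of_apply]
    ring
  -- the left hand side
  have hder : W * derivative (YC p (s + 1) (s' + 1) d N a b i l) =
      (Polynomial.C W * dc (X ^ (l : ℕ) * (a ^ (s + 1) * b ^ (s' + 1)))).coeff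
        (p * ((i : ℕ) + 1) - 1) := by
    rw [coeff_C_mul, dc_coeff, YC, Matrix.of_apply]
  have hX : dc ((X : R[X][X]) ^ (l : ℕ)) = 0 := by
    have := dc_map ((X : R[X]) ^ (l : ℕ))
    rwa [Polynomial.map_pow, Polynomial.map_X] at this
  have e4 : Polynomial.C W * dc (X ^ (l : ℕ) * (a ^ (s + 1) * b ^ (s' + 1))) =
      derivative (S l * (a ^ (s + 1) * b ^ (s' + 1))) -
        (P l + derivative (S l)) * (a ^ (s + 1) * b ^ (s' + 1)) := by
    rw [dc_mul, hX, dc_mul, dc_pow, dc_pow, derivative_mul, derivative_mul, derivative_pow,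
      derivative_pow]
    have e6 : (Polynomial.C ((s + 1 : ℕ) : R[X]) : R[X][X]) = ((s + 1 : ℕ) : R[X][X]) :=
      map_natCast _ _
    have e7 : (Polynomial.C ((s' + 1 : ℕ) : R[X]) : R[X][X]) = ((s' + 1 : ℕ) : R[X][X]) :=
      map_natCast _ _
    rw [e6, e7, Nat.add_sub_cancel, Nat.add_sub_cancel, hrk, hrk', pow_succ, pow_succ]
    unfold Lam at hrel
    linear_combination (-(k : R[X][X]) * a ^ s * b ^ s') * hrel +
      (a ^ s * a * b ^ s' * b * P l) * hmk
  rw [hder, hRHS, e4, coeff_sub, coeff_der, zero_sub]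

end Pool.Agent.Helper18.CX
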