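import Pool.Agent.Helper62.CX.Stm
import Pool.Agent.Helper62.BW.NV

/-!
# C7: the nonvanishing
-/

set_option autoImplicit false

open Polynomial Matrix Finset Filter

namespace Pool.Agent.Helper18.CX

open Pool.Agent.Helper62.BM Pool.Agent.Helper62.BW Pool.Agent.Helper62.CX Pool.Agent.Helper72.BM

theorem c_NV (hInd : C_Ind) (hEmb : S_Emb) (hTau : S_Tau) : C_NV := by
  intro n d hn hd A _ _ _ _ Dt hOk hSt e A₀ β
  have hne : Nonempty {a : A // a ≠ 0} := ⟨⟨1, one_ne_zero⟩⟩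
  obtain ⟨en, hen⟩ := exists_surjective_nat {a : A // a ≠ 0}
  set aa : ℕ → A := fun i => ∏ j ∈ range (i + 1), (en j : A) with haa
  have haa0 : ∀ i, aa i ≠ 0 := fun i => Finset.prod_ne_zero_iff.2 fun j _ => (en j).2
  have hev : ∀ (C : ℕ → Type) [∀ i, Field (C i)] (p : ℕ → ℕ) (φ : ∀ i, A →+* C i),
      (∀ i, φ i (aa i) ≠ 0) → ∀ U : Ultrafilter ℕ, (∀ N : ℕ, ∀ᶠ i in (U : Filter ℕ), N < p i) →
      ∀ a : A, a ≠ 0 → ∀ᶠ i in (U : Filter ℕ), φ i a ≠ 0 := by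
    intro C _ p φ hφ U hU a ha
    obtain ⟨j, hj⟩ := hen ⟨a, ha⟩
    filter_upwards [ultra_ge U p hU j] with i hi h0
    apply hφ i
    rw [haa, map_prod]
    refine Finset.prod_eq_zero (Finset.mem_range.2 (show j < i + 1 by omega)) ?_
    rw [hj]
    exact h0
  have hB : ∃ i₀ : ℕ, ∀ (p : ℕ) [Fact p.Prime] (C : Type) [Field C] [CharP C p] (φ : A →+* C),
      i₀ ≤ p → φ (aa i₀) ≠ 0 → ∀ (D : Der (KX C)), IsDer D →
      ∀ (Y : Matrix (Fin d) (Fin n) (KX C)),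
      (∀ j l, D (Y j l) = (Y * (Dt.map φ).B) j l) →
      (∀ c : Fin d → KX C, c ᵥ* Y = 0 → c = 0) →
      NVp C p (fun u : Fin d × Fin n => Y u.1 u.2) e A₀ β := by
    by_contra hcon
    push Not at hcon
    choose p hp C fC cC φ hle hφ D hD Y hY hrk hNV using hcon
    have hNV' : ∀ i, ∃ G : MvPolynomial (Fin d × Fin n) (@Polynomial (@Polynomial (C i) _) _),
        G ≠ 0 ∧ G.totalDegree ≤ e ∧
        (∀ m, (G.coeff m).natDegree < β ∧ ∀ b, ((G.coeff m).coeff b).natDegree < A₀) ∧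
        MvPolynomial.eval₂ (evT (C i) (p i)) (fun u : Fin d × Fin n => Y i u.1 u.2) G = 0 := by
      intro i
      have h := hNV i
      rw [NVp] at h
      push Not at h
      obtain ⟨G, h1, h2, h3, h4⟩ := h
      exact ⟨G, h1, h2, h3, h4⟩
    choose G hG1 hG2 hG3 hG4 using hNV'
    exact nv_core hEmb hTau C p hle D hD _ (fun U hN τ hτ f' hf1 hf2 G' hG' =>
      hInd n d hn hd A Dt hOk hSt U C p hN φ (hev C p φ hφ U hN) D hD τ hτ f' hf1
        hf2 Y hY (fun i c hc => by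
          by_contra h0
          exact h0 (hrk i c hc)) G' hG') G hG1 hG2 hG3 hG4
  obtain ⟨p₀, h1⟩ := hB
  exact ⟨p₀, aa p₀, haa0 _, fun p _ C _ _ φ hp hφ D hD Y hY hrk => h1 p C φ hp hφ D hD Y hY hrk⟩

end Pool.Agent.Helper18.CX
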